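import Mathlib

/-! # Algebraic identities for a homogeneous rotation symmetric bent function of degree 4. -/

set_option autoImplicit false

namespace Pool.Agent.Helper70.Bent

variable {K : Type*} [CommRing K]

/-- the cubic block map -/
def F (X Y : ℕ → K) : K :=
  X 2 * X 8 * X 64 + X 2 * Y 8 * Y 64 + Y 2 * X 8 * Y 64 + Y 2 * Y 8 * X 64 + Y 2 * X 8 * X 64

/-- the first piece of the quartic -/
def E1 (P Q : ℕ → K) : K :=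
  P 72 * F Q P + P 1 * P 8 * Q 64 + P 1 * P 40 * Q 32 + P 1 * P 56 * Q 16 + P 1 * P 17 * Q 55
    + P 1 * P 68 * Q 4 + P 1 * P 8 * P 56 * Q 8 + P 1 * P 8 * P 63 * Q 1 + P 1 * P 8 * Q 1 * Q 63
    + P 1 * P 8 * Q 8 * Q 56

/-- the second piece of the quartic -/
def E2 (P Q : ℕ → K) : K :=
  (Q 25 + Q 5 * Q 20) * (P 20 * P 28 + P 16 * P 32)
    + (Q 3 + Q 1 * Q 2) * (P 17 * P 53 + P 14 * P 56)
    + (Q 58 + Q 63 * Q 68) * (P 15 + P 5 * P 10)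

/-- the quartic expression -/
def E (P Q : ℕ → K) : K := E1 P Q + E2 P Q

lemma E_rot (w : K) (hw : w ^ 73 = 1) (P Q : ℕ → K) :
    E (fun k => w ^ k * Q k) (fun k => w ^ k * P k) = E Q P := by
  have h2 : w ^ 146 = 1 := by
    rw [show (146 : ℕ) = 73 * 2 by norm_num, pow_mul, hw, one_pow]
  simp only [E, E1, E2, F]
  linear_combination
    (Q 1 * Q 8 * P 64 + Q 1 * Q 40 * P 32 + Q 1 * Q 56 * P 16 + Q 1 * Q 17 * P 55
      + Q 1 * Q 68 * P 4 + Q 1 * Q 8 * Q 56 * P 8 + Q 1 * Q 8 * Q 63 * P 1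
      + Q 1 * Q 8 * P 1 * P 63 + Q 1 * Q 8 * P 8 * P 56
      + (P 25 + P 5 * P 20) * (Q 20 * Q 28 + Q 16 * Q 32)
      + (P 3 + P 1 * P 2) * (Q 17 * Q 53 + Q 14 * Q 56)
      + P 58 * (Q 15 + Q 5 * Q 10)) * hw
    + (Q 72 * (P 2 * P 8 * P 64 + P 2 * Q 8 * Q 64 + Q 2 * P 8 * Q 64 + Q 2 * Q 8 * P 64
        + Q 2 * P 8 * P 64)
      + P 63 * P 68 * (Q 15 + Q 5 * Q 10)) * h2

lemma E1_left_zero (Q : ℕ → K) : E1 (fun _ => 0) Q = 0 := by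
  simp only [E1, F]; ring

lemma E1_right_zero (P : ℕ → K) : E1 P (fun _ => 0) = 0 := by
  simp only [E1, F]; ring

section trace

variable (T : K →+ ZMod 2) (hT : ∀ w : K, T (w ^ 2) = T w)

include hT in
lemma T_pow (w : K) (k : ℕ) : T (w ^ (2 ^ k)) = T w := by
  induction k with
  | zero => simp
  | succ k ih => rw [pow_succ, pow_mul, hT, ih]

lemma pow73 (x : K) (hx : x ^ 73 = 1) (a b : ℕ) (h : a % 73 = b % 73) : x ^ a = x ^ b := by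
  rw [pow_eq_pow_mod a hx, pow_eq_pow_mod b hx, h]

include hT in
lemma T_mono (x y z : K) (hx : x ^ 73 = 1) (hy : y ^ 73 = 1) (hz : z ^ 73 = 1)
    (a b c a' b' c' k : ℕ) (ha : a * 2 ^ k % 73 = a' % 73) (hb : b * 2 ^ k % 73 = b' % 73)
    (hc : c * 2 ^ k % 73 = c' % 73) :
    T (x ^ a * y ^ b * z ^ c) + T (x ^ a' * y ^ b' * z ^ c') = 0 := by
  have h : T (x ^ a * y ^ b * z ^ c) = T (x ^ a' * y ^ b' * z ^ c') := by
    rw [← T_pow T hT (x ^ a * y ^ b * z ^ c) k, mul_pow, mul_pow, ← pow_mul, ← pow_mul,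
      ← pow_mul, pow73 x hx _ _ ha, pow73 y hy _ _ hb, pow73 z hz _ _ hc]
  rw [h]
  exact CharTwo.add_self_eq_zero _

include hT in
lemma T_mono2 (x z : K) (hx : x ^ 73 = 1) (hz : z ^ 73 = 1)
    (a c a' c' k : ℕ) (ha : a * 2 ^ k % 73 = a' % 73)
    (hc : c * 2 ^ k % 73 = c' % 73) :
    T (x ^ a * z ^ c) + T (x ^ a' * z ^ c') = 0 := by
  have h : T (x ^ a * z ^ c) = T (x ^ a' * z ^ c') := by
    rw [← T_pow T hT (x ^ a * z ^ c) k, mul_pow, ← pow_mul, ← pow_mul,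
      pow73 x hx _ _ ha, pow73 z hz _ _ hc]
  rw [h]
  exact CharTwo.add_self_eq_zero _

/-- sum of the two monomials of a pair -/
def term (x y z : K) : ℕ × ℕ × ℕ × ℕ × ℕ × ℕ × ℕ → K :=
  fun t => x ^ t.1 * y ^ t.2.1 * z ^ t.2.2.1 + x ^ t.2.2.2.1 * y ^ t.2.2.2.2.1 * z ^ t.2.2.2.2.2.1

/-- the two monomials of a pair are Frobenius conjugate modulo `x ^ 73 = 1` -/
def good (t : ℕ × ℕ × ℕ × ℕ × ℕ × ℕ × ℕ) : Bool :=
  (t.1 * 2 ^ t.2.2.2.2.2.2 % 73 == t.2.2.2.1 % 73) &&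
    (t.2.1 * 2 ^ t.2.2.2.2.2.2 % 73 == t.2.2.2.2.1 % 73) &&
    (t.2.2.1 * 2 ^ t.2.2.2.2.2.2 % 73 == t.2.2.2.2.2.1 % 73)

include hT in
lemma T_term (x y z : K) (hx : x ^ 73 = 1) (hy : y ^ 73 = 1) (hz : z ^ 73 = 1)
    (t : ℕ × ℕ × ℕ × ℕ × ℕ × ℕ × ℕ) (ht : good t = true) : T (term x y z t) = 0 := by
  obtain ⟨a, b, c, a', b', c', k⟩ := t
  simp only [good, Bool.and_eq_true, beq_iff_eq] at ht
  obtain ⟨⟨h1, h2⟩, h3⟩ := ht
  simp only [term, map_add]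
  exact T_mono T hT x y z hx hy hz a b c a' b' c' k h1 h2 h3

include hT in
lemma T_list (x y z : K) (hx : x ^ 73 = 1) (hy : y ^ 73 = 1) (hz : z ^ 73 = 1)
    (l : List (ℕ × ℕ × ℕ × ℕ × ℕ × ℕ × ℕ)) (hl : l.all good = true) :
    T ((l.map (term x y z)).sum) = 0 := by
  induction l with
  | nil => simp
  | cons t l ih =>
    rw [List.all_cons, Bool.and_eq_true] at hl
    rw [List.map_cons, List.sum_cons, map_add, T_term T hT x y z hx hy hz t hl.1, ih hl.2, add_zero]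

/-- pairs for weight (1, 1) -/
def l11 : List (ℕ × ℕ × ℕ × ℕ × ℕ × ℕ × ℕ) :=
  [(72, 0, 74, 144, 0, 2, 1), (138, 0, 8, 82, 0, 64, 3), (9, 0, 64, 41, 0, 32, 8),
   (57, 0, 16, 18, 0, 55, 3), (69, 0, 4, 65, 0, 8, 1), (72, 0, 1, 9, 0, 64, 6),
   (9, 0, 64, 72, 0, 74, 3), (74, 0, 72, 74, 0, 72, 0), (2, 0, 144, 8, 0, 138, 2),
   (64, 0, 82, 64, 0, 9, 0), (32, 0, 41, 16, 0, 57, 8), (55, 0, 18, 4, 0, 69, 4),
   (8, 0, 65, 1, 0, 72, 6), (64, 0, 9, 64, 0, 9, 0)]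

/-- pairs for weight (2, 1) -/
def l21 : List (ℕ × ℕ × ℕ × ℕ × ℕ × ℕ × ℕ) :=
  [(72, 0, 74, 144, 0, 2, 1), (138, 0, 8, 82, 0, 64, 3), (9, 0, 64, 41, 0, 32, 8),
   (57, 0, 16, 18, 0, 55, 3), (69, 0, 4, 65, 0, 8, 1), (72, 0, 1, 9, 0, 64, 6),
   (9, 0, 64, 72, 0, 74, 3), (0, 72, 74, 0, 144, 2, 1), (0, 138, 8, 0, 82, 64, 3),
   (0, 9, 64, 0, 41, 32, 8), (0, 57, 16, 0, 18, 55, 3), (0, 69, 4, 0, 65, 8, 1),
   (0, 72, 1, 0, 9, 64, 6), (0, 9, 64, 0, 72, 74, 3), (80, 64, 2, 56, 1, 16, 3),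
   (136, 8, 2, 17, 1, 55, 6), (72, 72, 2, 72, 72, 2, 0), (8, 136, 2, 1, 17, 55, 6),
   (64, 80, 2, 1, 56, 16, 3), (74, 64, 8, 8, 74, 64, 3), (8, 1, 64, 1, 64, 8, 6),
   (64, 8, 1, 8, 1, 64, 6), (8, 1, 64, 64, 8, 74, 3), (136, 2, 8, 68, 1, 4, 8),
   (72, 66, 8, 9, 63, 1, 6), (66, 72, 8, 63, 9, 1, 6), (2, 136, 8, 1, 68, 4, 8),
   (64, 74, 8, 74, 8, 64, 3), (1, 8, 64, 64, 1, 8, 6), (8, 64, 1, 1, 8, 64, 6),
   (1, 8, 64, 8, 64, 74, 3), (80, 2, 64, 40, 1, 32, 8), (72, 10, 64, 9, 56, 8, 6),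
   (10, 72, 64, 56, 9, 8, 6), (2, 80, 64, 1, 40, 32, 8), (74, 0, 72, 74, 0, 72, 0),
   (2, 0, 144, 8, 0, 138, 2), (64, 0, 82, 64, 0, 9, 0), (32, 0, 41, 16, 0, 57, 8),
   (55, 0, 18, 4, 0, 69, 4), (8, 0, 65, 1, 0, 72, 6), (64, 0, 9, 64, 0, 9, 0),
   (72, 2, 72, 72, 2, 72, 0), (2, 72, 72, 2, 72, 72, 0), (0, 74, 72, 0, 74, 72, 0),
   (0, 2, 144, 0, 8, 138, 2), (0, 64, 82, 0, 64, 9, 0), (0, 32, 41, 0, 16, 57, 8),
   (0, 55, 18, 0, 4, 69, 4), (0, 8, 65, 0, 1, 72, 6), (0, 64, 9, 0, 64, 9, 0),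
   (57, 8, 8, 71, 1, 1, 6), (8, 57, 8, 1, 71, 1, 6), (10, 64, 72, 56, 8, 9, 6),
   (66, 8, 72, 63, 1, 9, 6), (8, 66, 72, 1, 63, 9, 6), (64, 10, 72, 8, 56, 9, 6)]

lemma l11_good : l11.all good = true := by decide

lemma l21_good : l21.all good = true := by decide

lemma l11_sum (x z : K) : E1 (fun k => x ^ k) (fun k => z ^ k) + E1 (fun k => z ^ k) (fun k => x ^ k)
    = (l11.map (term x 1 z)).sum := by
  simp only [l11, List.map_cons, List.map_nil, List.sum_cons, List.sum_nil, term, E1, F]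
  ring

lemma l21_sum (x y z : K) : E1 (fun k => x ^ k + y ^ k) (fun k => z ^ k)
      + E1 (fun k => z ^ k) (fun k => x ^ k + y ^ k) = (l21.map (term x y z)).sum := by
  simp only [l21, List.map_cons, List.map_nil, List.sum_cons, List.sum_nil, term, E1, F]
  ring

include hT in
lemma tr11 (x z : K) (hx : x ^ 73 = 1) (hz : z ^ 73 = 1) :
    T (E1 (fun k => x ^ k) (fun k => z ^ k)) + T (E1 (fun k => z ^ k) (fun k => x ^ k)) = 0 := by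
  rw [← map_add, l11_sum]
  exact T_list T hT x 1 z hx (one_pow _) hz l11 l11_good

include hT in
lemma tr21 (x y z : K) (hx : x ^ 73 = 1) (hy : y ^ 73 = 1) (hz : z ^ 73 = 1) :
    T (E1 (fun k => x ^ k + y ^ k) (fun k => z ^ k))
      + T (E1 (fun k => z ^ k) (fun k => x ^ k + y ^ k)) = 0 := by
  rw [← map_add, l21_sum]
  exact T_list T hT x y z hx hy hz l21 l21_good

end trace

end Pool.Agent.Helper70.Bent
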