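import Mathlib
import Pool.Agent.Helper70.Bent.Alg

/-! # The quartic form in 146 variables: definitions. -/

set_option autoImplicit false

namespace Pool.Agent.Helper70.Bent

/-- the space of all vectors -/
abbrev V := Fin 146 → ZMod 2

variable {K : Type*} [CommRing K] [Algebra (ZMod 2) K]

/-- weights of the power sums of the even part -/
def wP (z : K) (k : ℕ) (i : Fin 146) : K := if i.val % 2 = 0 then z ^ (k * i.val) else 0

/-- weights of the power sums of the odd part -/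
def wQ (z : K) (k : ℕ) (i : Fin 146) : K := if i.val % 2 = 0 then 0 else z ^ (k * i.val)

/-- the `k`-th power sum of the even part -/
def P (z : K) (k : ℕ) : V →ₗ[ZMod 2] K := Fintype.linearCombination (ZMod 2) (wP z k)

/-- the `k`-th power sum of the odd part -/
def Q (z : K) (k : ℕ) : V →ₗ[ZMod 2] K := Fintype.linearCombination (ZMod 2) (wQ z k)

/-- the parity of the even part -/
def sP : V →ₗ[ZMod 2] ZMod 2 :=
  Fintype.linearCombination (ZMod 2) (fun i : Fin 146 => if i.val % 2 = 0 then (1 : ZMod 2) else 0)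

/-- the parity of the odd part -/
def sQ : V →ₗ[ZMod 2] ZMod 2 :=
  Fintype.linearCombination (ZMod 2) (fun i : Fin 146 => if i.val % 2 = 0 then (0 : ZMod 2) else 1)

/-- the even part as a family of power sums -/
def PP (z : K) (x : V) (k : ℕ) : K := P z k x

/-- the odd part as a family of power sums -/
def QQ (z : K) (x : V) (k : ℕ) : K := Q z k x

lemma P_apply (z : K) (k : ℕ) (x : V) : P z k x = ∑ i : Fin 146, x i • wP z k i := by
  simp [P, Fintype.linearCombination_apply]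

lemma Q_apply (z : K) (k : ℕ) (x : V) : Q z k x = ∑ i : Fin 146, x i • wQ z k i := by
  simp [Q, Fintype.linearCombination_apply]

lemma sP_apply (x : V) : sP x = ∑ i : Fin 146, x i • (if i.val % 2 = 0 then (1 : ZMod 2) else 0) := by
  simp [sP, Fintype.linearCombination_apply]

lemma sQ_apply (x : V) : sQ x = ∑ i : Fin 146, x i • (if i.val % 2 = 0 then (0 : ZMod 2) else 1) := by
  simp [sQ, Fintype.linearCombination_apply]

/-- the quadratic building block -/
def b (T : K →+ ZMod 2) (s : ZMod 2) (p : ℕ → K) : ZMod 2 := s + T (p 5 * p 68)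

/-- the quartic function -/
def f (T : K →+ ZMod 2) (z : K) (x : V) : ZMod 2 :=
  b T (sP x) (PP z x) * b T (sQ x) (QQ z x) + T (E (PP z x) (QQ z x)) + T (E (QQ z x) (PP z x))

/-- The subgroup. -/
def C (z : K) : AddSubgroup V where
  carrier := {c | sP c + sQ c = 0 ∧ (P z 1 c = 0 ∧ P z 5 c = 0 ∧ P z 17 c = 0 ∧ P z 15 c = 0) ∧
    (Q z 1 c = 0 ∧ Q z 5 c = 0 ∧ Q z 17 c = 0 ∧ Q z 15 c = 0)}
  zero_mem' := by simp
  add_mem' := by
    rintro a c ⟨h1, ⟨h2, h3, h4, h5⟩, h6, h7, h8, h9⟩ ⟨g1, ⟨g2, g3, g4, g5⟩, g6, g7, g8, g9⟩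
    refine ⟨?_, ⟨?_, ?_, ?_, ?_⟩, ?_, ?_, ?_, ?_⟩
    · rw [map_add, map_add]
      linear_combination h1 + g1
    all_goals simp [*]
  neg_mem' := by
    rintro a ⟨h1, ⟨h2, h3, h4, h5⟩, h6, h7, h8, h9⟩
    refine ⟨?_, ⟨?_, ?_, ?_, ?_⟩, ?_, ?_, ?_, ?_⟩
    · rw [map_neg, map_neg]
      linear_combination -h1
    all_goals simp [*]

lemma mem_C {z : K} {c : V} : c ∈ C z ↔ sP c + sQ c = 0 ∧
    (P z 1 c = 0 ∧ P z 5 c = 0 ∧ P z 17 c = 0 ∧ P z 15 c = 0) ∧
    (Q z 1 c = 0 ∧ Q z 5 c = 0 ∧ Q z 17 c = 0 ∧ Q z 15 c = 0) := Iff.rfl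

/-- the derivative in the direction `c` -/
def π (T : K →+ ZMod 2) (z : K) (x c : V) : ZMod 2 :=
  sP c * (1 + sP x + sQ x + T (P z 5 x * P z 68 x) + T (Q z 5 x * Q z 68 x))
  + T (P z 72 c * F (QQ z x) (PP z x)) + T (Q z 72 c * F (PP z x) (QQ z x))
  + T (Q z 25 c * (P z 20 x * P z 28 x + P z 16 x * P z 32 x))
  + T (P z 25 c * (Q z 20 x * Q z 28 x + Q z 16 x * Q z 32 x))
  + T (Q z 3 c * (P z 17 x * P z 53 x + P z 14 x * P z 56 x))
  + T (P z 3 c * (Q z 17 x * Q z 53 x + Q z 14 x * Q z 56 x))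
  + T (Q z 58 c * (P z 15 x + P z 5 x * P z 10 x))
  + T (P z 58 c * (Q z 15 x + Q z 5 x * Q z 10 x))

end Pool.Agent.Helper70.Bent
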