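import Mathlib
import Pool.Agent.Helper70.Bent.Defs

/-! # Frobenius, periodicity and rotation of the power sums. -/

set_option autoImplicit false

namespace Pool.Agent.Helper70.Bent

variable {K : Type*} [Field K] [Algebra (ZMod 2) K]

lemma charK (K : Type*) [Field K] [Algebra (ZMod 2) K] : CharP K 2 :=
  charP_of_injective_algebraMap (algebraMap (ZMod 2) K).injective 2

lemma two_zero (K : Type*) [Field K] [Algebra (ZMod 2) K] : (2 : K) = 0 := by
  have := charK K
  exact CharTwo.two_eq_zero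

lemma smul_sq (a : ZMod 2) (w : K) : a • (w ^ 2) = (a • w) ^ 2 := by
  have h : ∀ c : ZMod 2, c = 0 ∨ c = 1 := by decide
  rcases h a with h | h
  · rw [h, zero_smul, zero_smul]
    ring
  · rw [h, one_smul, one_smul]

lemma sum_sq {ι : Type*} (s : Finset ι) (g : ι → K) : ∑ i ∈ s, (g i) ^ 2 = (∑ i ∈ s, g i) ^ 2 := by
  have := charK K
  exact (sum_pow_char 2 s g).symm

lemma P_frob (z : K) (k : ℕ) (x : V) : P z (2 * k) x = (P z k x) ^ 2 := by
  rw [P_apply, P_apply, ← sum_sq]
  refine Finset.sum_congr rfl fun i _ => ?_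
  rw [← smul_sq]
  congr 1
  simp only [wP]
  split_ifs
  · rw [← pow_mul]
    congr 1
    ring
  · simp

lemma Q_frob (z : K) (k : ℕ) (x : V) : Q z (2 * k) x = (Q z k x) ^ 2 := by
  rw [Q_apply, Q_apply, ← sum_sq]
  refine Finset.sum_congr rfl fun i _ => ?_
  rw [← smul_sq]
  congr 1
  simp only [wQ]
  split_ifs
  · simp
  · rw [← pow_mul]
    congr 1
    ring

lemma wP_period (z : K) (hz : z ^ 73 = 1) (k l : ℕ) (h : k % 73 = l % 73) (i : Fin 146) :
    wP z k i = wP z l i := by
  simp only [wP]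
  split_ifs
  · exact pow73 z hz _ _ (by rw [Nat.mul_mod, h, ← Nat.mul_mod])
  · rfl

lemma wQ_period (z : K) (hz : z ^ 73 = 1) (k l : ℕ) (h : k % 73 = l % 73) (i : Fin 146) :
    wQ z k i = wQ z l i := by
  simp only [wQ]
  split_ifs
  · rfl
  · exact pow73 z hz _ _ (by rw [Nat.mul_mod, h, ← Nat.mul_mod])

lemma P_period (z : K) (hz : z ^ 73 = 1) (k l : ℕ) (h : k % 73 = l % 73) (x : V) :
    P z k x = P z l x := by
  rw [P_apply, P_apply]
  exact Finset.sum_congr rfl fun i _ => by rw [wP_period z hz k l h]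

lemma Q_period (z : K) (hz : z ^ 73 = 1) (k l : ℕ) (h : k % 73 = l % 73) (x : V) :
    Q z k x = Q z l x := by
  rw [Q_apply, Q_apply]
  exact Finset.sum_congr rfl fun i _ => by rw [wQ_period z hz k l h]

/-- combined Frobenius: `P_l = P_k ^ (2 ^ j)` whenever `l = k 2 ^ j` modulo 73 -/
lemma P_pow (z : K) (hz : z ^ 73 = 1) (k j l : ℕ) (h : k * 2 ^ j % 73 = l % 73) (x : V) :
    P z l x = (P z k x) ^ (2 ^ j) := by
  rw [← P_period z hz _ _ h]
  clear h
  induction j with
  | zero => simp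
  | succ j ih =>
    rw [show k * 2 ^ (j + 1) = 2 * (k * 2 ^ j) by ring, P_frob, ih, ← pow_mul, pow_succ]

lemma Q_pow (z : K) (hz : z ^ 73 = 1) (k j l : ℕ) (h : k * 2 ^ j % 73 = l % 73) (x : V) :
    Q z l x = (Q z k x) ^ (2 ^ j) := by
  rw [← Q_period z hz _ _ h]
  clear h
  induction j with
  | zero => simp
  | succ j ih =>
    rw [show k * 2 ^ (j + 1) = 2 * (k * 2 ^ j) by ring, Q_frob, ih, ← pow_mul, pow_succ]

lemma fr_val (i : Fin 146) : (finRotate 146 i).val = if i.val = 145 then 0 else i.val + 1 := by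
  have h := finRotate_apply i
  rw [h]
  split_ifs with hi
  · have : i = Fin.last 145 := Fin.ext hi
    rw [this]
    simp
  · exact Fin.val_add_one_of_lt (by
      rw [Fin.lt_def]
      have := i.isLt
      simp only [Fin.val_last]
      omega)

lemma wP_rot (z : K) (hz : z ^ 73 = 1) (k : ℕ) (i : Fin 146) :
    wP z k i = (z ^ 72) ^ k * wQ z k (finRotate 146 i) := by
  have h := fr_val i
  have hi := i.isLt
  simp only [wP, wQ]
  by_cases h1 : i.val = 145
  · rw [if_pos h1] at h
    rw [h]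
    simp [h1]
  · rw [if_neg h1] at h
    rw [h]
    by_cases h2 : i.val % 2 = 0
    · rw [if_pos h2, if_neg (by omega), ← pow_mul, ← pow_add]
      refine pow73 z hz _ _ ?_
      rw [show 72 * k + k * (i.val + 1) = k * i.val + 73 * k by ring]
      omega
    · rw [if_neg h2, if_pos (by omega), mul_zero]

lemma wQ_rot (z : K) (hz : z ^ 73 = 1) (k : ℕ) (i : Fin 146) :
    wQ z k i = (z ^ 72) ^ k * wP z k (finRotate 146 i) := by
  have h := fr_val i
  have hi := i.isLt
  simp only [wP, wQ]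
  by_cases h1 : i.val = 145
  · rw [if_pos h1] at h
    rw [h, h1, if_neg (by norm_num), if_pos (by norm_num), ← pow_mul, ← pow_add]
    refine pow73 z hz _ _ ?_
    rw [show k * 145 = 72 * k + k * 0 + 73 * k by ring]
    omega
  · rw [if_neg h1] at h
    rw [h]
    by_cases h2 : i.val % 2 = 0
    · rw [if_pos h2, if_neg (by omega), mul_zero]
    · rw [if_neg h2, if_pos (by omega), ← pow_mul, ← pow_add]
      refine pow73 z hz _ _ ?_
      rw [show 72 * k + k * (i.val + 1) = k * i.val + 73 * k by ring]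
      omega

lemma P_rot (z : K) (hz : z ^ 73 = 1) (k : ℕ) (x : V) :
    P z k (x ∘ finRotate 146) = (z ^ 72) ^ k * Q z k x := by
  rw [P_apply, Q_apply, ← Equiv.sum_comp (finRotate 146) (fun i => x i • wQ z k i), Finset.mul_sum]
  refine Finset.sum_congr rfl fun i _ => ?_
  rw [Function.comp_apply, wP_rot z hz, mul_smul_comm]

lemma Q_rot (z : K) (hz : z ^ 73 = 1) (k : ℕ) (x : V) :
    Q z k (x ∘ finRotate 146) = (z ^ 72) ^ k * P z k x := by
  rw [P_apply, Q_apply, ← Equiv.sum_comp (finRotate 146) (fun i => x i • wP z k i), Finset.mul_sum]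
  refine Finset.sum_congr rfl fun i _ => ?_
  rw [Function.comp_apply, wQ_rot z hz, mul_smul_comm]

lemma sP_rot (x : V) : sP (x ∘ finRotate 146) = sQ x := by
  rw [sP_apply, sQ_apply, ← Equiv.sum_comp (finRotate 146) (fun i => x i • _)]
  refine Finset.sum_congr rfl fun i _ => ?_
  rw [Function.comp_apply]
  congr 1
  rw [fr_val i]
  have hi := i.isLt
  split_ifs <;> first | rfl | omega

lemma sQ_rot (x : V) : sQ (x ∘ finRotate 146) = sP x := by
  rw [sP_apply, sQ_apply, ← Equiv.sum_comp (finRotate 146) (fun i => x i • (if i.val % 2 = 0 then (1 : ZMod 2) else 0))]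
  refine Finset.sum_congr rfl fun i _ => ?_
  rw [Function.comp_apply]
  congr 1
  rw [fr_val i]
  have hi := i.isLt
  split_ifs <;> first | rfl | omega

lemma f_rot (T : K →+ ZMod 2) (z : K) (hz : z ^ 73 = 1) (x : V) :
    f T z (x ∘ finRotate 146) = f T z x := by
  have h1 : PP z (x ∘ finRotate 146) = fun k => (z ^ 72) ^ k * QQ z x k := by
    funext k
    exact P_rot z hz k x
  have h2 : QQ z (x ∘ finRotate 146) = fun k => (z ^ 72) ^ k * PP z x k := by
    funext k
    exact Q_rot z hz k x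
  have hw : (z ^ 72) ^ 73 = 1 := by
    rw [← pow_mul, mul_comm, pow_mul, hz, one_pow]
  have hb : ∀ (s : ZMod 2) (p : ℕ → K), b T s (fun k => (z ^ 72) ^ k * p k) = b T s p := by
    intro s p
    simp only [b]
    congr 2
    have : (z ^ 72) ^ 5 * (z ^ 72) ^ 68 = 1 := by rw [← pow_add, hw]
    linear_combination p 5 * p 68 * this
  simp only [f]
  rw [h1, h2, sP_rot, sQ_rot, hb, hb, E_rot _ hw, E_rot _ hw]
  ring

end Pool.Agent.Helper70.Bent
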