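import Mathlib

/-! # Algebraic normal forms: functions of bounded degree. -/

set_option autoImplicit false

namespace Pool.Agent.Helper70.Bent

section Deg

variable {n : ℕ}

/-- the monomial of a set -/
def mono (S : Finset (Fin n)) (x : Fin n → ZMod 2) : ZMod 2 := ∏ i ∈ S, x i

lemma mono_eq (S : Finset (Fin n)) (x : Fin n → ZMod 2) :
    mono S x = if ∀ i ∈ S, x i = 1 then 1 else 0 := by
  unfold mono
  split_ifs with h
  · exact Finset.prod_eq_one h
  · push Not at h
    obtain ⟨i, hi, hx⟩ := h
    have h01 : ∀ a : ZMod 2, a ≠ 1 → a = 0 := by decide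
    exact Finset.prod_eq_zero hi (h01 _ hx)

lemma mono_mul (S T : Finset (Fin n)) (x : Fin n → ZMod 2) :
    mono S x * mono T x = mono (S ∪ T) x := by
  rw [mono_eq, mono_eq, mono_eq]
  by_cases h1 : ∀ i ∈ S, x i = 1
  · by_cases h2 : ∀ i ∈ T, x i = 1
    · rw [if_pos h1, if_pos h2, if_pos, mul_one]
      intro i hi
      rcases Finset.mem_union.mp hi with h | h
      · exact h1 i h
      · exact h2 i h
    · have h3 : ¬ ∀ i ∈ S ∪ T, x i = 1 := fun h =>
        h2 fun i hi => h i (Finset.mem_union_right _ hi)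
      rw [if_neg h2, if_neg h3, mul_zero]
  · have h3 : ¬ ∀ i ∈ S ∪ T, x i = 1 := fun h =>
      h1 fun i hi => h i (Finset.mem_union_left _ hi)
    rw [if_neg h1, if_neg h3, zero_mul]

/-- functions given by polynomials of degree at most `r` -/
def Deg {A : Type*} [AddCommGroup A] [Module (ZMod 2) A] (r : ℕ)
    (h : (Fin n → ZMod 2) → A) : Prop :=
  ∃ c : Finset (Fin n) → A, (∀ S, r < S.card → c S = 0) ∧
    ∀ x, h x = ∑ S : Finset (Fin n), mono S x • c S

variable {A B : Type*} [AddCommGroup A] [Module (ZMod 2) A] [AddCommGroup B] [Module (ZMod 2) B]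

lemma Deg.mono {r s : ℕ} (hrs : r ≤ s) {h : (Fin n → ZMod 2) → A} (hh : Deg r h) : Deg s h := by
  obtain ⟨c, hc, hx⟩ := hh
  exact ⟨c, fun S hS => hc S (by omega), hx⟩

lemma Deg.add {r : ℕ} {g h : (Fin n → ZMod 2) → A} (hg : Deg r g) (hh : Deg r h) :
    Deg r (fun x => g x + h x) := by
  obtain ⟨c, hc, hx⟩ := hg
  obtain ⟨d, hd, hy⟩ := hh
  refine ⟨fun S => c S + d S, fun S hS => by
    dsimp only
    rw [hc S hS, hd S hS, add_zero], fun x => ?_⟩
  dsimp only
  rw [hx, hy, ← Finset.sum_add_distrib]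
  exact Finset.sum_congr rfl fun S _ => by rw [smul_add]

lemma Deg.map {r : ℕ} {g : (Fin n → ZMod 2) → A} (hg : Deg r g) (φ : A →ₗ[ZMod 2] B) :
    Deg r (fun x => φ (g x)) := by
  obtain ⟨c, hc, hx⟩ := hg
  refine ⟨fun S => φ (c S), fun S hS => by
    dsimp only
    rw [hc S hS, map_zero], fun x => ?_⟩
  dsimp only
  rw [hx, map_sum]
  exact Finset.sum_congr rfl fun S _ => by rw [map_smul]

lemma Deg.single (S : Finset (Fin n)) (a : A) (r : ℕ) (hS : S.card ≤ r) :
    Deg r (fun x => Bent.mono S x • a) := by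
  refine ⟨fun U => if U = S then a else 0, fun U hU => ?_, fun x => ?_⟩
  · dsimp only
    rw [if_neg]
    rintro rfl
    omega
  · dsimp only
    rw [Finset.sum_eq_single S]
    · rw [if_pos rfl]
    · intro U _ hU
      rw [if_neg hU, smul_zero]
    · intro h
      exact absurd (Finset.mem_univ _) h

lemma Deg.const (a : A) (r : ℕ) : Deg r (fun _ : Fin n → ZMod 2 => a) := by
  have h := Deg.single (n := n) ∅ a r (by simp)
  have e : (fun x : Fin n → ZMod 2 => Bent.mono ∅ x • a) = fun _ => a := by
    funext x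
    simp [Bent.mono]
  rwa [e] at h

lemma Deg.sum {ι : Type*} (s : Finset ι) {r : ℕ} {g : ι → (Fin n → ZMod 2) → A}
    (hg : ∀ i ∈ s, Deg r (g i)) : Deg r (fun x => ∑ i ∈ s, g i x) := by
  classical
  induction s using Finset.induction_on with
  | empty => simpa using Deg.const (0 : A) r
  | insert i s hi ih =>
    have h1 := hg i (Finset.mem_insert_self _ _)
    have h2 := ih fun j hj => hg j (Finset.mem_insert_of_mem hj)
    have h3 := h1.add h2
    have e : (fun x => ∑ j ∈ insert i s, g j x) = fun x => g i x + ∑ j ∈ s, g j x := by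
      funext x
      rw [Finset.sum_insert hi]
    rwa [e]

lemma Deg.lin (l : (Fin n → ZMod 2) →ₗ[ZMod 2] A) : Deg 1 (fun x => l x) := by
  have h : Deg 1 (fun x : Fin n → ZMod 2 => ∑ i : Fin n, Bent.mono {i} x • l (Pi.single i 1)) :=
    Deg.sum _ fun i _ => Deg.single {i} _ 1 (by simp)
  have e : (fun x => l x) = fun x : Fin n → ZMod 2 =>
      ∑ i : Fin n, Bent.mono {i} x • l (Pi.single i 1) := by
    funext x
    rw [LinearMap.pi_apply_eq_sum_univ l x]
    refine Finset.sum_congr rfl fun i _ => ?_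
    simp only [Bent.mono, Finset.prod_singleton]
    congr 2
    funext j
    rw [Pi.single_apply]
    by_cases hij : i = j
    · subst hij
      simp
    · rw [if_neg hij, if_neg (Ne.symm hij)]
  rwa [e]

end Deg

section mul

variable {n : ℕ} {A : Type*} [CommRing A] [Algebra (ZMod 2) A]

lemma Deg.mul {r s : ℕ} {g h : (Fin n → ZMod 2) → A} (hg : Deg r g) (hh : Deg s h) :
    Deg (r + s) (fun x => g x * h x) := by
  obtain ⟨c, hc, hx⟩ := hg
  obtain ⟨d, hd, hy⟩ := hh
  refine ⟨fun U => ∑ p : Finset (Fin n) × Finset (Fin n),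
    if p.1 ∪ p.2 = U then c p.1 * d p.2 else 0, fun U hU => ?_, fun x => ?_⟩
  · dsimp only
    refine Finset.sum_eq_zero fun p _ => ?_
    split_ifs with hp
    · have h1 : U.card ≤ p.1.card + p.2.card := by
        rw [← hp]
        exact Finset.card_union_le _ _
      by_cases h2 : r < p.1.card
      · rw [hc _ h2, zero_mul]
      · rw [hd _ (by omega), mul_zero]
    · rfl
  · dsimp only
    rw [hx, hy, Finset.sum_mul_sum]
    have e : ∀ U : Finset (Fin n), Bent.mono U x • (∑ p : Finset (Fin n) × Finset (Fin n),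
        if p.1 ∪ p.2 = U then c p.1 * d p.2 else 0) = ∑ p : Finset (Fin n) × Finset (Fin n),
        if p.1 ∪ p.2 = U then Bent.mono U x • (c p.1 * d p.2) else 0 := by
      intro U
      rw [Finset.smul_sum]
      exact Finset.sum_congr rfl fun p _ => by rw [smul_ite, smul_zero]
    rw [Finset.sum_congr rfl fun U _ => e U]
    symm
    rw [Finset.sum_comm, Fintype.sum_prod_type]
    refine Finset.sum_congr rfl fun S _ => Finset.sum_congr rfl fun T _ => ?_
    rw [Finset.sum_ite_eq, if_pos (Finset.mem_univ _), ← mono_mul, smul_mul_smul_comm]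

lemma Deg.mul' {r s t : ℕ} {g h : (Fin n → ZMod 2) → A} (hg : Deg r g) (hh : Deg s h)
    (hrs : r + s ≤ t) : Deg t (fun x => g x * h x) := (hg.mul hh).mono hrs

end mul

/-- a function of degree at most 4 that vanishes on all vectors of weight at most 3 is
homogeneous of degree 4 -/
theorem anf_four {n : ℕ} (f : (Fin n → ZMod 2) → ZMod 2) (h4 : Deg 4 f)
    (h3 : ∀ T : Finset (Fin n), T.card ≤ 3 → f (fun i => if i ∈ T then 1 else 0) = 0) :
    ∃ c : Finset (Fin n) → ZMod 2, (∀ S, c S ≠ 0 → S.card = 4) ∧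
      ∀ x, f x = ∑ S : Finset (Fin n), c S * ∏ i ∈ S, x i := by
  obtain ⟨c, hc, hx⟩ := h4
  have hval : ∀ T : Finset (Fin n), f (fun i => if i ∈ T then 1 else 0) =
      ∑ S ∈ T.powerset, c S := by
    intro T
    rw [hx, ← Finset.sum_subset (Finset.subset_univ T.powerset)]
    · refine Finset.sum_congr rfl fun S hS => ?_
      rw [mono_eq, if_pos, one_smul]
      intro i hi
      rw [if_pos (Finset.mem_powerset.mp hS hi)]
    · intro S _ hS
      rw [mono_eq, if_neg, zero_smul]
      intro h
      apply hS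
      rw [Finset.mem_powerset]
      intro i hi
      have h1 := h i hi
      by_contra hiT
      rw [if_neg hiT] at h1
      exact absurd h1 (by decide)
  have hzero : ∀ k : ℕ, ∀ T : Finset (Fin n), T.card = k → k ≤ 3 → c T = 0 := by
    intro k
    induction k using Nat.strong_induction_on with
    | _ k ih =>
      intro T hT hk
      have h1 := h3 T (by omega)
      rw [hval, Finset.sum_eq_single_of_mem T (Finset.mem_powerset_self T)] at h1
      · exact h1
      · intro S hS hST
        have h2 : S ⊂ T := by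
          rw [Finset.ssubset_iff_subset_ne]
          exact ⟨Finset.mem_powerset.mp hS, hST⟩
        have h3 := Finset.card_lt_card h2
        exact ih S.card (by omega) S rfl (by omega)
  refine ⟨c, fun S hS => ?_, fun x => ?_⟩
  · by_contra hne
    rcases Nat.lt_or_gt_of_ne hne with h | h
    · exact hS (hzero S.card S rfl (by omega))
    · exact hS (hc S h)
  · rw [hx]
    refine Finset.sum_congr rfl fun S _ => ?_
    rw [smul_eq_mul, mul_comm]
    rfl

end Pool.Agent.Helper70.Bent
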