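import Mathlib
import Pool.Agent.Helper70.Bent.Forms
import Pool.Agent.Helper70.Bent.Anf

/-! # The quartic function has degree at most 4. -/

set_option autoImplicit false

namespace Pool.Agent.Helper70.Bent

variable {K : Type*} [Field K] [Algebra (ZMod 2) K]

lemma deg_E (p q : ℕ → V → K) (hp : ∀ k, Deg 1 (p k)) (hq : ∀ k, Deg 1 (q k)) :
    Deg 4 (fun x => E (fun k => p k x) (fun k => q k x)) := by
  have m2 : ∀ {u v : V → K}, Deg 1 u → Deg 1 v → Deg 2 (fun x => u x * v x) :=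
    fun hu hv => hu.mul' hv (by norm_num)
  have m3 : ∀ {u v w : V → K}, Deg 1 u → Deg 1 v → Deg 1 w → Deg 3 (fun x => u x * v x * w x) :=
    fun hu hv hw => (m2 hu hv).mul' hw (by norm_num)
  have m34 : ∀ {u v w : V → K}, Deg 1 u → Deg 1 v → Deg 1 w → Deg 4 (fun x => u x * v x * w x) :=
    fun hu hv hw => (m3 hu hv hw).mono (by norm_num)
  have m4 : ∀ {u v w t : V → K}, Deg 1 u → Deg 1 v → Deg 1 w → Deg 1 t →
      Deg 4 (fun x => u x * v x * w x * t x) :=
    fun hu hv hw ht => (m3 hu hv hw).mul' ht (by norm_num)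
  have up : ∀ {u : V → K}, Deg 1 u → Deg 2 u := fun hu => hu.mono (by norm_num)
  have m22 : ∀ {u v : V → K}, Deg 2 u → Deg 2 v → Deg 4 (fun x => u x * v x) :=
    fun hu hv => hu.mul' hv (by norm_num)
  have hF : Deg 3 (fun x => F (fun k => q k x) (fun k => p k x)) := by
    simp only [F]
    exact ((((m3 (hq 2) (hq 8) (hq 64)).add (m3 (hq 2) (hp 8) (hp 64))).add
      (m3 (hp 2) (hq 8) (hp 64))).add (m3 (hp 2) (hp 8) (hq 64))).add (m3 (hp 2) (hq 8) (hq 64))
  have h0 : Deg 4 (fun x => p 72 x * F (fun k => q k x) (fun k => p k x)) :=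
    (hp 72).mul' hF (by norm_num)
  have h1 : Deg 4 (fun x => E1 (fun k => p k x) (fun k => q k x)) := by
    simp only [E1]
    exact ((((((((h0.add (m34 (hp 1) (hp 8) (hq 64))).add (m34 (hp 1) (hp 40) (hq 32))).add
      (m34 (hp 1) (hp 56) (hq 16))).add (m34 (hp 1) (hp 17) (hq 55))).add
      (m34 (hp 1) (hp 68) (hq 4))).add (m4 (hp 1) (hp 8) (hp 56) (hq 8))).add
      (m4 (hp 1) (hp 8) (hp 63) (hq 1))).add (m4 (hp 1) (hp 8) (hq 1) (hq 63))).add
      (m4 (hp 1) (hp 8) (hq 8) (hq 56))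
  have h2 : Deg 4 (fun x => E2 (fun k => p k x) (fun k => q k x)) := by
    simp only [E2]
    exact ((m22 ((up (hq 25)).add (m2 (hq 5) (hq 20)))
      ((m2 (hp 20) (hp 28)).add (m2 (hp 16) (hp 32)))).add
      (m22 ((up (hq 3)).add (m2 (hq 1) (hq 2)))
      ((m2 (hp 17) (hp 53)).add (m2 (hp 14) (hp 56))))).add
      (m22 ((up (hq 58)).add (m2 (hq 63) (hq 68))) ((up (hp 15)).add (m2 (hp 5) (hp 10))))
  simp only [E]
  exact h1.add h2

/-- additive maps between modules over `ZMod 2` are linear -/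
def toLin (T : K →+ ZMod 2) : K →ₗ[ZMod 2] ZMod 2 :=
  T.toZModLinearMap 2

theorem deg_f (T : K →+ ZMod 2) (z : K) : Deg 4 (f T z) := by
  have hp : ∀ k, Deg 1 (fun x => P z k x) := fun k => Deg.lin (P z k)
  have hq : ∀ k, Deg 1 (fun x => Q z k x) := fun k => Deg.lin (Q z k)
  have e1 := deg_E (fun k x => P z k x) (fun k x => Q z k x) hp hq
  have e2 := deg_E (fun k x => Q z k x) (fun k x => P z k x) hq hp
  have t1 := e1.map (toLin T)
  have t2 := e2.map (toLin T)
  have b1 : Deg 2 (fun x => sP x + toLin T (P z 5 x * P z 68 x)) :=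
    ((Deg.lin sP).mono (by norm_num)).add (((hp 5).mul (hp 68)).map (toLin T))
  have b2 : Deg 2 (fun x => sQ x + toLin T (Q z 5 x * Q z 68 x)) :=
    ((Deg.lin sQ).mono (by norm_num)).add (((hq 5).mul (hq 68)).map (toLin T))
  exact ((b1.mul b2).add t1).add t2

end Pool.Agent.Helper70.Bent
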