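import Mathlib
import Pool.Agent.Helper70.Bent.Forms

/-! # The derivative of the quartic function along the subgroup. -/

set_option autoImplicit false

namespace Pool.Agent.Helper70.Bent

variable {K : Type*} [Field K] [Algebra (ZMod 2) K]

lemma P_zero_of (z : K) (hz : z ^ 73 = 1) {k : ℕ} {c : V} (hc : P z k c = 0) (j l : ℕ)
    (h : k * 2 ^ j % 73 = l % 73) : P z l c = 0 := by
  rw [P_pow z hz k j l h, hc]
  exact zero_pow (by positivity)

lemma Q_zero_of (z : K) (hz : z ^ 73 = 1) {k : ℕ} {c : V} (hc : Q z k c = 0) (j l : ℕ)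
    (h : k * 2 ^ j % 73 = l % 73) : Q z l c = 0 := by
  rw [Q_pow z hz k j l h, hc]
  exact zero_pow (by positivity)

lemma E_add (p q p' q' : ℕ → K)
    (p1 : p' 1 = 0) (p2 : p' 2 = 0) (p4 : p' 4 = 0) (p8 : p' 8 = 0) (p16 : p' 16 = 0)
    (p32 : p' 32 = 0) (p64 : p' 64 = 0) (p55 : p' 55 = 0)
    (p5 : p' 5 = 0) (p10 : p' 10 = 0) (p20 : p' 20 = 0) (p28 : p' 28 = 0) (p40 : p' 40 = 0)
    (p14 : p' 14 = 0) (p56 : p' 56 = 0)
    (p17 : p' 17 = 0) (p53 : p' 53 = 0) (p63 : p' 63 = 0) (p68 : p' 68 = 0) (p15 : p' 15 = 0)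
    (q1 : q' 1 = 0) (q2 : q' 2 = 0) (q4 : q' 4 = 0) (q8 : q' 8 = 0) (q16 : q' 16 = 0)
    (q32 : q' 32 = 0) (q64 : q' 64 = 0) (q55 : q' 55 = 0)
    (q5 : q' 5 = 0) (q10 : q' 10 = 0) (q20 : q' 20 = 0) (q28 : q' 28 = 0) (q40 : q' 40 = 0)
    (q14 : q' 14 = 0) (q56 : q' 56 = 0)
    (q17 : q' 17 = 0) (q53 : q' 53 = 0) (q63 : q' 63 = 0) (q68 : q' 68 = 0) (q15 : q' 15 = 0) :
    E (fun k => p k + p' k) (fun k => q k + q' k) = E p q + p' 72 * F q p
      + q' 25 * (p 20 * p 28 + p 16 * p 32) + q' 3 * (p 17 * p 53 + p 14 * p 56)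
      + q' 58 * (p 15 + p 5 * p 10) := by
  simp only [E, E1, E2, F, p1, p2, p4, p8, p16, p32, p64, p55, p5, p10, p20, p28, p40, p14, p56,
    p17, p53, p63, p68, p15, q1, q2, q4, q8, q16, q32, q64, q55, q5, q10, q20, q28, q40, q14, q56,
    q17, q53, q63, q68, q15, add_zero]
  ring

theorem f_add (T : K →+ ZMod 2) (z : K) (hz : z ^ 73 = 1) (x c : V) (hc : c ∈ C z) :
    f T z (x + c) = f T z x + π T z x c := by
  obtain ⟨hs, ⟨c1, c5, c17, c15⟩, d1, d5, d17, d15⟩ := mem_C.mp hc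
  have p1 : PP z c 1 = 0 := c1
  have p2 : PP z c 2 = 0 := P_zero_of z hz c1 1 2 (by norm_num)
  have p4 : PP z c 4 = 0 := P_zero_of z hz c1 2 4 (by norm_num)
  have p8 : PP z c 8 = 0 := P_zero_of z hz c1 3 8 (by norm_num)
  have p16 : PP z c 16 = 0 := P_zero_of z hz c1 4 16 (by norm_num)
  have p32 : PP z c 32 = 0 := P_zero_of z hz c1 5 32 (by norm_num)
  have p64 : PP z c 64 = 0 := P_zero_of z hz c1 6 64 (by norm_num)
  have p55 : PP z c 55 = 0 := P_zero_of z hz c1 7 55 (by norm_num)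
  have p5 : PP z c 5 = 0 := c5
  have p10 : PP z c 10 = 0 := P_zero_of z hz c5 1 10 (by norm_num)
  have p20 : PP z c 20 = 0 := P_zero_of z hz c5 2 20 (by norm_num)
  have p40 : PP z c 40 = 0 := P_zero_of z hz c5 3 40 (by norm_num)
  have p14 : PP z c 14 = 0 := P_zero_of z hz c5 5 14 (by norm_num)
  have p28 : PP z c 28 = 0 := P_zero_of z hz c5 6 28 (by norm_num)
  have p56 : PP z c 56 = 0 := P_zero_of z hz c5 7 56 (by norm_num)
  have p17 : PP z c 17 = 0 := c17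
  have p68 : PP z c 68 = 0 := P_zero_of z hz c17 2 68 (by norm_num)
  have p63 : PP z c 63 = 0 := P_zero_of z hz c17 3 63 (by norm_num)
  have p53 : PP z c 53 = 0 := P_zero_of z hz c17 4 53 (by norm_num)
  have p15 : PP z c 15 = 0 := c15
  have q1 : QQ z c 1 = 0 := d1
  have q2 : QQ z c 2 = 0 := Q_zero_of z hz d1 1 2 (by norm_num)
  have q4 : QQ z c 4 = 0 := Q_zero_of z hz d1 2 4 (by norm_num)
  have q8 : QQ z c 8 = 0 := Q_zero_of z hz d1 3 8 (by norm_num)
  have q16 : QQ z c 16 = 0 := Q_zero_of z hz d1 4 16 (by norm_num)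
  have q32 : QQ z c 32 = 0 := Q_zero_of z hz d1 5 32 (by norm_num)
  have q64 : QQ z c 64 = 0 := Q_zero_of z hz d1 6 64 (by norm_num)
  have q55 : QQ z c 55 = 0 := Q_zero_of z hz d1 7 55 (by norm_num)
  have q5 : QQ z c 5 = 0 := d5
  have q10 : QQ z c 10 = 0 := Q_zero_of z hz d5 1 10 (by norm_num)
  have q20 : QQ z c 20 = 0 := Q_zero_of z hz d5 2 20 (by norm_num)
  have q40 : QQ z c 40 = 0 := Q_zero_of z hz d5 3 40 (by norm_num)
  have q14 : QQ z c 14 = 0 := Q_zero_of z hz d5 5 14 (by norm_num)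
  have q28 : QQ z c 28 = 0 := Q_zero_of z hz d5 6 28 (by norm_num)
  have q56 : QQ z c 56 = 0 := Q_zero_of z hz d5 7 56 (by norm_num)
  have q17 : QQ z c 17 = 0 := d17
  have q68 : QQ z c 68 = 0 := Q_zero_of z hz d17 2 68 (by norm_num)
  have q63 : QQ z c 63 = 0 := Q_zero_of z hz d17 3 63 (by norm_num)
  have q53 : QQ z c 53 = 0 := Q_zero_of z hz d17 4 53 (by norm_num)
  have q15 : QQ z c 15 = 0 := d15
  have hP : PP z (x + c) = fun k => PP z x k + PP z c k := by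
    funext k
    exact map_add _ _ _
  have hQ : QQ z (x + c) = fun k => QQ z x k + QQ z c k := by
    funext k
    exact map_add _ _ _
  have e1 := E_add (PP z x) (QQ z x) (PP z c) (QQ z c) p1 p2 p4 p8 p16 p32 p64 p55 p5 p10 p20 p28
    p40 p14 p56 p17 p53 p63 p68 p15 q1 q2 q4 q8 q16 q32 q64 q55 q5 q10 q20 q28 q40 q14 q56 q17
    q53 q63 q68 q15
  have e2 := E_add (QQ z x) (PP z x) (QQ z c) (PP z c) q1 q2 q4 q8 q16 q32 q64 q55 q5 q10 q20 q28
    q40 q14 q56 q17 q53 q63 q68 q15 p1 p2 p4 p8 p16 p32 p64 p55 p5 p10 p20 p28 p40 p14 p56 p17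
    p53 p63 p68 p15
  have hb1 : b T (sP (x + c)) (PP z (x + c)) = b T (sP x) (PP z x) + sP c := by
    simp only [b]
    rw [hP]
    simp only [p5, p68, add_zero, map_add]
    ring
  have hb2 : b T (sQ (x + c)) (QQ z (x + c)) = b T (sQ x) (QQ z x) + sP c := by
    have h2 : (2 : ZMod 2) = 0 := by decide
    simp only [b]
    rw [hQ]
    simp only [q5, q68, add_zero, map_add]
    linear_combination hs - sP c * h2
  have hsq : ∀ s : ZMod 2, s * s = s := by decide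
  have key : f T z (x + c) = (b T (sP x) (PP z x) + sP c) * (b T (sQ x) (QQ z x) + sP c)
      + T (E (PP z (x + c)) (QQ z (x + c))) + T (E (QQ z (x + c)) (PP z (x + c))) := by
    simp only [f]
    rw [hb1, hb2]
  rw [key, hP, hQ, e1, e2]
  simp only [map_add]
  simp only [f, π, b, PP, QQ, map_add, mul_add]
  linear_combination hsq (sP c)

end Pool.Agent.Helper70.Bent
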