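import Mathlib
import Pool.Agent.Helper70.Bent.Forms

/-! # The quartic function vanishes on all vectors of weight at most 3. -/

set_option autoImplicit false

namespace Pool.Agent.Helper70.Bent

variable {K : Type*} [Field K] [Algebra (ZMod 2) K]

/-- the function in terms of abstract data -/
def g (T : K →+ ZMod 2) (s t : ZMod 2) (p q : ℕ → K) : ZMod 2 :=
  b T s p * b T t q + T (E p q) + T (E q p)

lemma f_eq_g (T : K →+ ZMod 2) (z : K) (x : V) :
    f T z x = g T (sP x) (sQ x) (PP z x) (QQ z x) := rfl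

omit [Algebra (ZMod 2) K] in
lemma g_symm (T : K →+ ZMod 2) (s t : ZMod 2) (p q : ℕ → K) : g T s t p q = g T t s q p := by
  simp only [g]
  ring

omit [Algebra (ZMod 2) K] in
lemma g_zero (T : K →+ ZMod 2) (s : ZMod 2) (p : ℕ → K) : g T s 0 p (fun _ => 0) = 0 := by
  simp only [g, b, E, E1, E2, F]
  simp

omit [Algebra (ZMod 2) K] in
lemma b_one (T : K →+ ZMod 2) (hT1 : T 1 = 1) (w : K) (hw : w ^ 73 = 1) :
    b T 1 (fun k => w ^ k) = 0 := by
  simp only [b]
  rw [← pow_add, hw, hT1]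
  decide

lemma E2_mono (p : ℕ → K) (w : K) (hw : w ^ 73 = 1) :
    E2 p (fun k => w ^ k) = 0 := by
  have h2 := two_zero K
  simp only [E2]
  linear_combination ((w ^ 25) * (p 20 * p 28 + p 16 * p 32) + w ^ 3 * (p 17 * p 53 + p 14 * p 56)
    + w ^ 58 * (p 15 + p 5 * p 10)) * h2 + w ^ 58 * (p 15 + p 5 * p 10) * hw

lemma E2_mono' (q : ℕ → K) (w : K) :
    E2 (fun k => w ^ k) q = 0 := by
  have h2 := two_zero K
  simp only [E2]
  linear_combination ((q 25 + q 5 * q 20) * w ^ 48 + (q 3 + q 1 * q 2) * w ^ 70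
    + (q 58 + q 63 * q 68) * w ^ 15) * h2

lemma g_one (T : K →+ ZMod 2) (hT1 : T 1 = 1) (s : ZMod 2) (p : ℕ → K) (w : K) (hw : w ^ 73 = 1) :
    g T s 1 p (fun k => w ^ k) = T (E1 p (fun k => w ^ k)) + T (E1 (fun k => w ^ k) p) := by
  simp only [g, b_one T hT1 w hw, E, E2_mono p w hw, E2_mono' p w]
  ring_nf

lemma g_11 (T : K →+ ZMod 2) (hT : ∀ w : K, T (w ^ 2) = T w) (hT1 : T 1 = 1)
    (x w : K) (hx : x ^ 73 = 1) (hw : w ^ 73 = 1) (s : ZMod 2) :
    g T s 1 (fun k => x ^ k) (fun k => w ^ k) = 0 := by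
  rw [g_one T hT1 s _ w hw]
  exact tr11 T hT x w hx hw

lemma g_21 (T : K →+ ZMod 2) (hT : ∀ w : K, T (w ^ 2) = T w) (hT1 : T 1 = 1)
    (x y w : K) (hx : x ^ 73 = 1) (hy : y ^ 73 = 1) (hw : w ^ 73 = 1) (s : ZMod 2) :
    g T s 1 (fun k => x ^ k + y ^ k) (fun k => w ^ k) = 0 := by
  rw [g_one T hT1 s _ w hw]
  exact tr21 T hT x y w hx hy hw

/-- the indicator vector of a set -/
def ind (S : Finset (Fin 146)) : V := fun i => if i ∈ S then 1 else 0

lemma lin_ind {M : Type*} [AddCommGroup M] [Module (ZMod 2) M] (w : Fin 146 → M)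
    (S : Finset (Fin 146)) : ∑ i : Fin 146, ind S i • w i = ∑ i ∈ S, w i := by
  simp only [ind, ite_smul, one_smul, zero_smul]
  rw [Finset.sum_ite_mem, Finset.univ_inter]

lemma PP_ind (z : K) (S : Finset (Fin 146)) (k : ℕ) :
    PP z (ind S) k = ∑ i ∈ S.filter (fun i => i.val % 2 = 0), (z ^ i.val) ^ k := by
  simp only [PP]
  rw [P_apply, lin_ind, Finset.sum_filter]
  refine Finset.sum_congr rfl fun i _ => ?_
  simp only [wP]
  rw [← pow_mul, mul_comm]

lemma QQ_ind (z : K) (S : Finset (Fin 146)) (k : ℕ) :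
    QQ z (ind S) k = ∑ i ∈ S.filter (fun i => ¬ i.val % 2 = 0), (z ^ i.val) ^ k := by
  simp only [QQ]
  rw [Q_apply, lin_ind, Finset.sum_filter]
  refine Finset.sum_congr rfl fun i _ => ?_
  simp only [wQ]
  rw [← pow_mul, mul_comm]
  split_ifs <;> rfl

lemma sP_ind (S : Finset (Fin 146)) :
    sP (ind S) = ((S.filter (fun i => i.val % 2 = 0)).card : ZMod 2) := by
  rw [sP_apply, lin_ind, ← Finset.sum_filter]
  simp

lemma sQ_ind (S : Finset (Fin 146)) :
    sQ (ind S) = ((S.filter (fun i => ¬ i.val % 2 = 0)).card : ZMod 2) := by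
  rw [sQ_apply, lin_ind]
  rw [Finset.card_eq_sum_ones, Finset.sum_filter]
  push_cast
  refine Finset.sum_congr rfl fun i _ => ?_
  split_ifs <;> simp

/-- the value on data coming from two multisets of small total size -/
lemma g_small (T : K →+ ZMod 2) (hT : ∀ w : K, T (w ^ 2) = T w) (hT1 : T 1 = 1)
    (z : K) (hz : z ^ 73 = 1) (A B : Finset (Fin 146)) (hAB : A.card + B.card ≤ 3)
    (hle : B.card ≤ A.card) :
    g T (A.card : ZMod 2) (B.card : ZMod 2) (fun k => ∑ i ∈ A, (z ^ i.val) ^ k)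
      (fun k => ∑ i ∈ B, (z ^ i.val) ^ k) = 0 := by
  have hp : ∀ i : Fin 146, (z ^ i.val) ^ 73 = 1 := fun i => by
    rw [← pow_mul, mul_comm, pow_mul, hz, one_pow]
  have hB : B.card = 0 ∨ B.card = 1 := by omega
  rcases hB with hB | hB
  · rw [Finset.card_eq_zero] at hB
    subst hB
    simpa using g_zero T (A.card : ZMod 2) _
  · have hA : A.card = 1 ∨ A.card = 2 := by omega
    obtain ⟨w, rfl⟩ := Finset.card_eq_one.mp hB
    rcases hA with hA | hA
    · obtain ⟨u, rfl⟩ := Finset.card_eq_one.mp hA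
      simpa using g_11 T hT hT1 _ _ (hp u) (hp w) 1
    · obtain ⟨u, v, huv, rfl⟩ := Finset.card_eq_two.mp hA
      have h := g_21 T hT hT1 _ _ _ (hp u) (hp v) (hp w) ((({u, v} : Finset (Fin 146)).card : ZMod 2))
      simpa [Finset.sum_pair huv] using h

theorem f_ind (T : K →+ ZMod 2) (hT : ∀ w : K, T (w ^ 2) = T w) (hT1 : T 1 = 1)
    (z : K) (hz : z ^ 73 = 1) (S : Finset (Fin 146)) (hS : S.card ≤ 3) :
    f T z (fun i => if i ∈ S then 1 else 0) = 0 := by
  change f T z (ind S) = 0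
  rw [f_eq_g, sP_ind, sQ_ind]
  have h1 : PP z (ind S) = fun k => ∑ i ∈ S.filter (fun i => i.val % 2 = 0), (z ^ i.val) ^ k :=
    funext fun k => PP_ind z S k
  have h2 : QQ z (ind S) = fun k => ∑ i ∈ S.filter (fun i => ¬ i.val % 2 = 0), (z ^ i.val) ^ k :=
    funext fun k => QQ_ind z S k
  rw [h1, h2]
  have hcard := Finset.card_filter_add_card_filter_not (s := S) (fun i : Fin 146 => i.val % 2 = 0)
  rcases le_total (S.filter (fun i => ¬ i.val % 2 = 0)).card
    (S.filter (fun i => i.val % 2 = 0)).card with h | h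
  · exact g_small T hT hT1 z hz _ _ (by omega) h
  · rw [g_symm]
    exact g_small T hT hT1 z hz _ _ (by omega) h

end Pool.Agent.Helper70.Bent
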