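import Mathlib
import Pool.Agent.Helper70.Bent.Vanish
import Pool.Agent.Helper70.Bent.Deriv
import Pool.Agent.Helper70.Bent.Degree
import Pool.Agent.Helper52.Bent.Walsh

/-! # Assembly of the counterexample. -/

set_option autoImplicit false

namespace Pool.Agent.Helper70.Bent

variable {K : Type*} [Field K] [Algebra (ZMod 2) K]

lemma π_add (T : K →+ ZMod 2) (z : K) (x c c' : V) :
    π T z x (c + c') = π T z x c + π T z x c' := by
  simp only [π, map_add, add_mul]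
  ring

theorem assembly (T : K →+ ZMod 2) (hT : ∀ w : K, T (w ^ 2) = T w) (hT1 : T 1 = 1)
    (z : K) (hz : z ^ 73 = 1)
    (hinj : ∀ x y : V, (∀ c ∈ C z, π T z x c = π T z y c) → x - y ∈ C z)
    (hcard : Nat.card (C z) = 2 ^ 73) :
    ∃ (n : ℕ) (f : (Fin n → ZMod 2) → ZMod 2) (d : ℕ) (c : Finset (Fin n) → ZMod 2),
      2 < d ∧
      (∀ S : Finset (Fin n), c S ≠ 0 → S.card = d) ∧
      (∃ S : Finset (Fin n), c S ≠ 0) ∧
      (∀ x : Fin n → ZMod 2, f x = ∑ S : Finset (Fin n), c S * ∏ i ∈ S, x i) ∧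
      (∀ x : Fin n → ZMod 2, f (x ∘ finRotate n) = f x) ∧
      (∀ a : Fin n → ZMod 2,
        (∑ x : Fin n → ZMod 2, (-1 : ℤ) ^ (f x + ∑ i, a i * x i).val) ^ 2 = (2 : ℤ) ^ n) := by
  obtain ⟨c, hc4, hcx⟩ := anf_four (f T z) (deg_f T z) (f_ind T hT hT1 z hz)
  have hbent : ∀ a : Fin 146 → ZMod 2,
      (∑ x : Fin 146 → ZMod 2, (-1 : ℤ) ^ (f T z x + ∑ i, a i * x i).val) ^ 2 = (2 : ℤ) ^ 146 := by
    intro a
    refine Pool.Agent.Helper52.Bent.bent_of_slopes (f T z) (C z) ?_ (π T z)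
      (fun x c hc => f_add T z hz x c hc) (fun x c _ c' _ => π_add T z x c c') hinj a
    rw [hcard]
    norm_num
  refine ⟨146, f T z, 4, c, by norm_num, hc4, ?_, hcx, f_rot T z hz, hbent⟩
  by_contra hne
  push Not at hne
  have hf : ∀ x, f T z x = 0 := by
    intro x
    rw [hcx]
    exact Finset.sum_eq_zero fun S _ => by rw [hne S, zero_mul]
  have h := hbent 0
  have e : (∑ x : Fin 146 → ZMod 2, (-1 : ℤ) ^ (f T z x + ∑ i, (0 : Fin 146 → ZMod 2) i * x i).val)
      = 2 ^ 146 := by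
    have e1 : ∀ x : Fin 146 → ZMod 2,
        (-1 : ℤ) ^ (f T z x + ∑ i, (0 : Fin 146 → ZMod 2) i * x i).val = 1 := by
      intro x
      rw [hf x]
      simp
    rw [Finset.sum_congr rfl fun x _ => e1 x, Finset.sum_const, Finset.card_univ,
      Fintype.card_fun, ZMod.card, Fintype.card_fin]
    simp
  rw [e] at h
  norm_num at h

end Pool.Agent.Helper70.Bent
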